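import Pool.Agent.Q284.PS.Stm

/-! # Project PS, job PW: the pointwise bound -/

set_option autoImplicit false

open Finset Polynomial ComplexConjugate
open Pool.Agent.H341R2.Sharp (Mon mem_Mon Mon_zero)

namespace Pool.Agent.Q16.PS

open Pool.Agent.Q284.PS

section basic

variable {F : Type} [Field F]

theorem coprime_of_rough {Q f : F[X]} {y : ℕ} (hQ : Q.Monic) (hR : Q.natDegree ≤ y)
    (hf : Rough y f) : IsCoprime f Q := by
  classical
  refine isCoprime_of_irreducible_dvd (fun h => hQ.ne_zero h.2) ?_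
  intro z hz hzf hzQ
  have hz0 : z ≠ 0 := hz.ne_zero
  have hass : Associated (normalize z) z := normalize_associated z
  have h1 : (normalize z).Monic := Polynomial.monic_normalize hz0
  have h2 : Irreducible (normalize z) := (hass.irreducible_iff).2 hz
  have h3 := hf _ h1 h2 (hass.dvd.trans hzf)
  have h4 : (normalize z).natDegree ≤ Q.natDegree :=
    natDegree_le_of_dvd (hass.dvd.trans hzQ) hQ.ne_zero
  omega

theorem coprime_of_big {Q P : F[X]} {y : ℕ} (hQ : Q.Monic) (hR : Q.natDegree ≤ y)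
    (hPm : P.Monic) (hP : Irreducible P) (hy : y < P.natDegree) : IsCoprime P Q := by
  apply coprime_of_rough hQ hR
  intro P' h1 h2 h3
  have h4 : Associated P' P := (h2.dvd_irreducible_iff_associated hP).1 h3
  have h5 : P' = P := eq_of_monic_of_associated h1 hPm h4
  rw [h5]; exact hy

variable [Fintype F]

theorem mem_PD {k : ℕ} {P : F[X]} : P ∈ PD F k ↔ P.Monic ∧ P.natDegree ≤ k ∧ Irreducible P ∧
    P.natDegree ∣ k := by
  classical
  unfold PD
  rw [mem_filter, mem_biUnion]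
  constructor
  · rintro ⟨⟨n, hn, hP⟩, h1, h2⟩
    rw [mem_Mon] at hP
    rw [mem_range] at hn
    exact ⟨hP.1, by omega, h1, h2⟩
  · rintro ⟨h1, h2, h3, h4⟩
    exact ⟨⟨P.natDegree, by rw [mem_range]; omega, mem_Mon.2 ⟨h1, rfl⟩⟩, h3, h4⟩

theorem PD_zero : PD F 0 = ∅ := by
  rw [eq_empty_iff_forall_notMem]
  intro P hP
  rw [mem_PD] at hP
  obtain ⟨h1, h2, h3, _⟩ := hP
  have : P = 1 := eq_one_of_monic_natDegree_zero h1 (by omega)
  rw [this] at h3
  exact not_irreducible_one h3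

theorem qq_pos : 0 < qq F := by
  unfold qq
  exact_mod_cast Fintype.card_pos

theorem two_le_qq : 2 ≤ qq F := by
  unfold qq
  have := Fintype.one_lt_card (α := F)
  exact_mod_cast this

open Classical in
theorem sum_deg_le (hCPR : S_CPR) (y k : ℕ) :
    ∑ P ∈ (PD F k).filter (fun P => y < P.natDegree), (P.natDegree : ℝ) ≤ qq F ^ k := by
  rcases Nat.eq_zero_or_pos k with hk | hk
  · subst hk
    rw [PD_zero, filter_empty, sum_empty]
    simp
  · have h1 := hCPR F k hk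
    have h2 : ∑ P ∈ PD F k, (P.natDegree : ℝ) = qq F ^ k := by
      unfold qq
      exact_mod_cast h1
    rw [← h2]
    exact sum_le_sum_of_subset_of_nonneg (filter_subset _ _) (fun _ _ _ => Nat.cast_nonneg _)

theorem norm_pow_qq (k : ℕ) : ‖(qq F : ℂ) ^ k‖ = qq F ^ k := by
  rw [norm_pow, Complex.norm_real, Real.norm_of_nonneg qq_pos.le]

theorem AA_le_one (hCPR : S_CPR) {ψ : F[X] → ℂ} {y : ℕ}
    (hψ : ∀ P : F[X], P.Monic → Irreducible P → y < P.natDegree → ‖ψ P‖ ≤ 1) (k : ℕ) :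
    ‖AA y ψ k‖ ≤ 1 := by
  classical
  unfold AA
  rw [norm_div, norm_pow_qq, div_le_one (pow_pos qq_pos k)]
  refine le_trans (norm_sum_le _ _) (le_trans (sum_le_sum ?_) (sum_deg_le hCPR y k))
  intro P hP
  rw [mem_filter, mem_PD] at hP
  rw [norm_mul, norm_pow, Complex.norm_natCast]
  have h1 := hψ P hP.1.1 hP.1.2.2.1 hP.2
  calc (P.natDegree : ℝ) * ‖ψ P‖ ^ (k / P.natDegree) ≤ P.natDegree * 1 :=
        mul_le_mul_of_nonneg_left (pow_le_one₀ (norm_nonneg _) h1) (Nat.cast_nonneg _)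
    _ = _ := mul_one _

end basic

section pair

variable {F : Type} [Field F] [Fintype F]

/-- the consequence of RB for two characters -/
theorem rr_bound {C c₀ : ℝ} {y k : ℕ} {χ₁ χ₂ : F[X] → ℂ}
    (h₁ : ∀ f ∈ Ro F y k, ‖χ₁ f‖ = 1) (h₂ : ∀ f ∈ Ro F y k, ‖χ₂ f‖ = 1)
    (hRB : ∀ c : Bool → ℂ, |∑ f ∈ Ro F y k, ‖phi (fun b : Bool => cond b χ₁ χ₂) c f‖ ^ 2 -
      (Ro F y k).card * nsq c| ≤ C / y * Real.exp (-(c₀ * k / y)) * qq F ^ k * nsq c) :
    ‖rr y (fun f => χ₁ f * conj (χ₂ f)) k‖ ≤ C / y * Real.exp (-(c₀ * k / y)) := by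
  set S : ℂ := ∑ f ∈ Ro F y k, χ₁ f * conj (χ₂ f) with hS
  obtain ⟨u, hu1, hu2⟩ : ∃ u : ℂ, ‖u‖ = 1 ∧ (conj u * S).re = ‖S‖ := by
    by_cases h0 : S = 0
    · exact ⟨1, by simp, by simp [h0]⟩
    · have hn : ‖S‖ ≠ 0 := norm_ne_zero_iff.2 h0
      refine ⟨S / ‖S‖, ?_, ?_⟩
      · rw [norm_div, Complex.norm_real, norm_norm, div_self hn]
      · rw [map_div₀, Complex.conj_ofReal, div_mul_eq_mul_div, mul_comm, Complex.mul_conj,
          Complex.normSq_eq_norm_sq, ← Complex.ofReal_div, Complex.ofReal_re]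
        field_simp
  have key : ∀ f ∈ Ro F y k, ‖phi (fun b : Bool => cond b χ₁ χ₂) (fun b => cond b 1 u) f‖ ^ 2 =
      2 + 2 * (conj u * (χ₁ f * conj (χ₂ f))).re := by
    intro f hf
    have e : phi (fun b : Bool => cond b χ₁ χ₂) (fun b => cond b 1 u) f = χ₁ f + u * χ₂ f := by
      unfold phi
      rw [Fintype.sum_bool]
      simp
    rw [e, ← Complex.normSq_eq_norm_sq, Complex.normSq_add, Complex.normSq_mul,
      Complex.normSq_eq_norm_sq, Complex.normSq_eq_norm_sq, Complex.normSq_eq_norm_sq, h₁ f hf,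
      h₂ f hf, hu1, map_mul]
    have e2 : χ₁ f * (conj u * conj (χ₂ f)) = conj u * (χ₁ f * conj (χ₂ f)) := by ring
    rw [e2]
    norm_num
  have hsum : ∑ f ∈ Ro F y k, ‖phi (fun b : Bool => cond b χ₁ χ₂) (fun b => cond b 1 u) f‖ ^ 2 =
      (Ro F y k).card * 2 + 2 * ‖S‖ := by
    have e3 : (conj u * S).re = ∑ f ∈ Ro F y k, (conj u * (χ₁ f * conj (χ₂ f))).re := by
      rw [hS, mul_sum, Complex.re_sum]
    rw [sum_congr rfl key, sum_add_distrib, sum_const, nsmul_eq_mul, ← mul_sum, ← hu2, e3]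
  have hn : nsq (fun b : Bool => cond b (1 : ℂ) u) = 2 := by
    unfold nsq
    rw [Fintype.sum_bool]
    simp [hu1]
    norm_num
  have h3 := hRB (fun b => cond b 1 u)
  rw [hsum, hn] at h3
  have h4 : |(Ro F y k).card * (2 : ℝ) + 2 * ‖S‖ - (Ro F y k).card * 2| = 2 * ‖S‖ := by
    rw [add_sub_cancel_left, abs_of_nonneg (by positivity)]
  rw [h4] at h3
  unfold rr
  rw [norm_div, norm_pow_qq, div_le_iff₀ (pow_pos qq_pos k)]
  change ‖S‖ ≤ _
  linarith

/-- the positivity `3 + 4 Re x + Re x ^ 2 ≥ 0` -/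
theorem pos341 {x : ℂ} (hx : ‖x‖ = 1) : 0 ≤ 3 + 4 * x.re + (x ^ 2).re := by
  have h1 : x.re * x.re + x.im * x.im = 1 := by
    have := Complex.normSq_eq_norm_sq x
    rw [hx, Complex.normSq_apply] at this
    linarith
  rw [sq, Complex.mul_re]
  nlinarith [sq_nonneg (1 + x.re)]

theorem AA_one (y k : ℕ) : open Classical in
    AA y (fun _ : F[X] => (1 : ℂ)) k =
      (((∑ P ∈ (PD F k).filter (fun P => y < P.natDegree), (P.natDegree : ℝ)) / qq F ^ k : ℝ) : ℂ) := by
  classical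
  unfold AA
  push_cast
  congr 1
  exact sum_congr rfl fun P _ => by rw [one_pow, mul_one]

theorem rr_one (y k : ℕ) :
    rr y (fun _ : F[X] => (1 : ℂ)) k = (((Ro F y k).card / qq F ^ k : ℝ) : ℂ) := by
  unfold rr
  push_cast
  congr 1
  rw [sum_const, nsmul_eq_mul, mul_one]

open Classical in
theorem AA_pos (ψ : F[X] → ℂ) (y k : ℕ)
    (hψ : ∀ P : F[X], P.Monic → Irreducible P → y < P.natDegree → ‖ψ P‖ = 1) (w : ℂ)
    (hw : ‖w‖ = 1) :
    0 ≤ 3 * ((∑ P ∈ (PD F k).filter (fun P => y < P.natDegree), (P.natDegree : ℝ)) / qq F ^ k) +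
      4 * (AA y ψ k * w).re + (AA y (fun f => ψ f ^ 2) k * w ^ 2).re := by
  have e1 : ∀ v : ℂ, ∀ φ : F[X] → ℂ, (AA y φ k * v).re = (∑ P ∈ (PD F k).filter
      (fun P => y < P.natDegree), (P.natDegree : ℝ) * (φ P ^ (k / P.natDegree) * v).re) /
        qq F ^ k := by
    intro v φ
    unfold AA
    rw [div_mul_eq_mul_div, sum_mul, ← Complex.ofReal_pow, Complex.div_ofReal_re, Complex.re_sum]
    congr 1
    refine sum_congr rfl fun P _ => ?_
    rw [mul_assoc, ← Complex.ofReal_natCast, Complex.re_ofReal_mul]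
  rw [e1, e1, ← mul_div_assoc, ← mul_div_assoc, ← add_div, ← add_div]
  apply div_nonneg _ (pow_pos qq_pos k).le
  rw [mul_sum, mul_sum, ← sum_add_distrib, ← sum_add_distrib]
  apply sum_nonneg
  intro P hP
  rw [mem_filter, mem_PD] at hP
  set x : ℂ := ψ P ^ (k / P.natDegree) * w with hx
  have hx1 : ‖x‖ = 1 := by
    rw [hx, norm_mul, norm_pow, hψ P hP.1.1 hP.1.2.2.1 hP.2, hw, one_pow, mul_one]
  have hx2 : (ψ P ^ 2) ^ (k / P.natDegree) * w ^ 2 = x ^ 2 := by
    rw [hx]; ring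
  rw [hx2]
  have := pos341 hx1
  have h0 : (0 : ℝ) ≤ P.natDegree := Nat.cast_nonneg _
  nlinarith

theorem geom_le {q : ℝ} (hq : 2 ≤ q) (y : ℕ) : ∑ m ∈ Icc 1 y, q ^ m ≤ 2 * q ^ y := by
  induction y with
  | zero => simp
  | succ n ih =>
    rw [sum_Icc_succ_top (by omega)]
    have : q ^ (n + 1) = q * q ^ n := by ring
    have h1 : 0 < q ^ n := by positivity
    nlinarith

open Classical in
/-- the primes of small degree -/
theorem small_sum (hCPR : S_CPR) (y k : ℕ) :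
    ∑ P ∈ (PD F k).filter (fun P => ¬ y < P.natDegree), (P.natDegree : ℝ) ≤ 2 * qq F ^ y := by
  have hmap : ∀ P ∈ (PD F k).filter (fun P => ¬ y < P.natDegree), P.natDegree ∈ Icc 1 y := by
    intro P hP
    rw [mem_filter, mem_PD] at hP
    rw [mem_Icc]
    have : 0 < P.natDegree := hP.1.2.2.1.natDegree_pos
    omega
  rw [← sum_fiberwise_of_maps_to hmap]
  refine le_trans (sum_le_sum ?_) (geom_le two_le_qq y)
  intro m hm
  rw [mem_Icc] at hm
  have h1 := hCPR F m hm.1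
  have h2 : ∑ P ∈ PD F m, (P.natDegree : ℝ) = qq F ^ m := by
    unfold qq
    exact_mod_cast h1
  rw [← h2]
  apply sum_le_sum_of_subset_of_nonneg
  · intro P hP
    rw [mem_filter, mem_filter, mem_PD] at hP
    rw [mem_PD]
    exact ⟨hP.1.1.1, hP.2.le, hP.1.1.2.2.1, by rw [hP.2]⟩
  · intro _ _ _
    exact Nat.cast_nonneg _

theorem k_le (k : ℕ) : (k : ℝ) ≤ 2 * qq F ^ ((k : ℝ) / 2) := by
  have h1 : ∀ n : ℕ, n ^ 2 ≤ 4 * 2 ^ n := by
    intro n
    induction n with
    | zero => simp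
    | succ n ih =>
      rw [pow_succ 2 n]
      rcases Nat.lt_or_ge n 3 with h | h
      · interval_cases n <;> norm_num
      · nlinarith
  have h2 : ((k : ℝ)) ^ 2 ≤ 4 * 2 ^ k := by exact_mod_cast h1 k
  have h3 : (2 : ℝ) ^ k ≤ qq F ^ k := pow_le_pow_left₀ (by norm_num) two_le_qq k
  have h4 : (qq F ^ ((k : ℝ) / 2)) ^ 2 = qq F ^ k := by
    rw [← Real.rpow_natCast, ← Real.rpow_mul qq_pos.le, ← Real.rpow_natCast (qq F) k]
    congr 1
    push_cast
    ring
  have h5 : 0 ≤ qq F ^ ((k : ℝ) / 2) := Real.rpow_nonneg qq_pos.le _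
  by_contra hcon
  push Not at hcon
  nlinarith

/-- case B -/
theorem caseB (hCPR : S_CPR) {ψ : F[X] → ℂ} {R y k m : ℕ} (hy : 1 ≤ y) (h8 : 8 * R ≤ y) (hk : 1 ≤ k)
    (hm : m ≤ 2 * R)
    (hψ : ∀ P : F[X], P.Monic → Irreducible P → ‖ψ P‖ ≤ 1)
    (hW : ‖∑ P ∈ PD F k, (P.natDegree : ℂ) * ψ P ^ (k / P.natDegree)‖ ≤
      6 * m * qq F ^ ((k : ℝ) / 2)) : ‖AA y ψ k‖ ≤ 7 * y / k := by
  classical
  have hk0 : (0 : ℝ) < k := by exact_mod_cast hk
  have hy0 : (1 : ℝ) ≤ y := by exact_mod_cast hy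
  rcases Nat.lt_or_ge k (2 * y) with h | h
  · refine le_trans (AA_le_one hCPR (fun P h1 h2 _ => hψ P h1 h2) k) ?_
    rw [le_div_iff₀ hk0]
    have : (k : ℝ) < 2 * y := by exact_mod_cast h
    linarith
  · set x : ℝ := qq F ^ ((k : ℝ) / 2) with hx
    have hx0 : 0 < x := Real.rpow_pos_of_pos qq_pos _
    have hx2 : qq F ^ k = x * x := by
      rw [hx, ← Real.rpow_add qq_pos, ← Real.rpow_natCast (qq F) k]
      congr 1
      ring
    have hkx : (k : ℝ) ≤ 2 * x := k_le k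
    have hyx : qq F ^ y ≤ x := by
      rw [hx, ← Real.rpow_natCast (qq F) y]
      apply Real.rpow_le_rpow_of_exponent_le (by linarith [two_le_qq (F := F)])
      have : (2 : ℝ) * y ≤ k := by exact_mod_cast h
      linarith
    have hsmall : ‖∑ P ∈ (PD F k).filter (fun P => ¬ y < P.natDegree),
        (P.natDegree : ℂ) * ψ P ^ (k / P.natDegree)‖ ≤ 2 * x := by
      refine le_trans (norm_sum_le _ _) (le_trans (sum_le_sum ?_)
        (le_trans (small_sum hCPR y k) (by linarith)))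
      intro P hP
      rw [mem_filter, mem_PD] at hP
      rw [norm_mul, norm_pow, Complex.norm_natCast]
      have h1 := hψ P hP.1.1 hP.1.2.2.1
      calc (P.natDegree : ℝ) * ‖ψ P‖ ^ (k / P.natDegree) ≤ P.natDegree * 1 :=
            mul_le_mul_of_nonneg_left (pow_le_one₀ (norm_nonneg _) h1) (Nat.cast_nonneg _)
        _ = _ := mul_one _
    have hsplit := sum_filter_add_sum_filter_not (PD F k) (fun P => y < P.natDegree)
      (fun P => (P.natDegree : ℂ) * ψ P ^ (k / P.natDegree))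
    have hbig : ‖∑ P ∈ (PD F k).filter (fun P => y < P.natDegree),
        (P.natDegree : ℂ) * ψ P ^ (k / P.natDegree)‖ ≤ 6 * m * x + 2 * x := by
      rw [← eq_sub_iff_add_eq] at hsplit
      rw [hsplit]
      exact (norm_sub_le _ _).trans (add_le_add hW hsmall)
    unfold AA
    rw [norm_div, norm_pow_qq, div_le_div_iff₀ (pow_pos qq_pos k) hk0]
    have hm' : (m : ℝ) ≤ 2 * R := by exact_mod_cast hm
    have h8' : (8 : ℝ) * R ≤ y := by exact_mod_cast h8
    have h6 : 6 * (m : ℝ) * x + 2 * x ≤ 7 / 2 * y * x := by nlinarith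
    calc ‖∑ P ∈ (PD F k).filter (fun P => y < P.natDegree),
        (P.natDegree : ℂ) * ψ P ^ (k / P.natDegree)‖ * k ≤ (7 / 2 * y * x) * (2 * x) := by
          apply mul_le_mul (hbig.trans h6) hkx hk0.le (by positivity)
      _ = 7 * y * qq F ^ k := by rw [hx2]; ring

end pair

/-- **PW** -/
theorem t_PW (hRB : S_RB) (hIDN : S_IDN) (hPWA : S_PWA) (hLOW : S_LOW) (hWEIL : S_WEIL) (hHC : S_HC)
    (hCPR : S_CPR) : S_PW := by
  classical
  obtain ⟨C, c₀, hC, hc₀, H⟩ := hRB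
  have hC' : 0 < max C 1 := lt_max_of_lt_left hC
  obtain ⟨c₁, hc₁, H1⟩ := hLOW (max C 1) c₀ hC' hc₀
  obtain ⟨K, hK, H2⟩ := hPWA (max C 1) c₀ c₁ hC' hc₀ hc₁
  refine ⟨max K 7, lt_max_of_lt_left hK, ?_⟩
  intro F _ _ hchar R y ι _ χ hF hy h8 i j hij k hk
  have hk0 : (0 : ℝ) < k := by exact_mod_cast hk
  have hy0 : (1 : ℝ) ≤ y := by exact_mod_cast hy
  obtain ⟨Q₁, l₁, hH1, hl1⟩ := hF.lev i
  obtain ⟨Q₂, l₂, hH2, hl2⟩ := hF.lev j
  obtain ⟨h0, hh0m, hi0, hj0, hne⟩ := hF.sep i j hij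
  set ψ : F[X] → ℂ := fun f => χ i f * conj (χ j f) with hψdef
  have hψH : Hay (Q₁ * Q₂) (max l₁ l₂) ψ := (hHC F Q₁ Q₂ l₁ l₂ (χ i) (χ j) hH1 hH2).1
  have hn1 : ∀ f : F[X], f.Monic → Rough y f → ‖χ i f‖ = 1 := fun f hf hr =>
    hH1.norm f hf (coprime_of_rough hH1.monic (by omega) hr)
  have hn2 : ∀ f : F[X], f.Monic → Rough y f → ‖χ j f‖ = 1 := fun f hf hr =>
    hH2.norm f hf (coprime_of_rough hH2.monic (by omega) hr)
  have hRo : ∀ k : ℕ, ∀ f ∈ Ro F y k, f.Monic ∧ Rough y f := by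
    intro k f hf
    unfold Ro at hf
    rw [mem_filter, mem_Mon] at hf
    exact ⟨hf.1.1, hf.2⟩
  have hbig : ∀ P : F[X], P.Monic → Irreducible P → y < P.natDegree → Rough y P := by
    intro P hPm hP hy P' h1 h2 h3
    have h4 : Associated P' P := (h2.dvd_irreducible_iff_associated hP).1 h3
    rw [eq_of_monic_of_associated h1 hPm h4]
    exact hy
  have hψ1 : ∀ P : F[X], P.Monic → Irreducible P → y < P.natDegree → ‖ψ P‖ = 1 := by
    intro P h1 h2 h3
    have hr := hbig P h1 h2 h3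
    simp only [hψdef]
    rw [norm_mul, RCLike.norm_conj, hn1 P h1 hr, hn2 P h1 hr, mul_one]
  have hψle : ∀ P : F[X], P.Monic → ‖ψ P‖ ≤ 1 := by
    intro P h1
    by_cases h2 : IsCoprime P (Q₁ * Q₂)
    · exact (hψH.norm P h1 h2).le
    · rw [hψH.zero P h1 h2, norm_zero]
      exact zero_le_one
  by_cases hA : ∃ h : F[X], h.Monic ∧ ψ h ≠ 0 ∧ ψ h ^ 2 ≠ 1
  · -- case A
    obtain ⟨h, hhm, hh1, hh2⟩ := hA
    have fam1 : Fam R (fun b : Bool => cond b (χ i) (χ j)) := by
      refine ⟨?_, ?_⟩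
      · intro b
        cases b
        · exact ⟨Q₂, l₂, hH2, hl2⟩
        · exact ⟨Q₁, l₁, hH1, hl1⟩
      · intro a b hab
        cases a <;> cases b
        · exact absurd rfl hab
        · exact ⟨h0, hh0m, hj0, hi0, hne.symm⟩
        · exact ⟨h0, hh0m, hi0, hj0, hne⟩
        · exact absurd rfl hab
    have hi2 : χ i h ≠ 0 := by
      intro h3
      apply hh1
      simp only [hψdef]
      rw [h3, zero_mul]
    have hj2 : χ j h ≠ 0 := by
      intro h3
      apply hh1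
      simp only [hψdef]
      rw [h3, map_zero, mul_zero]
    have hne2 : χ i h ^ 2 ≠ χ j h ^ 2 := by
      intro h3
      apply hh2
      have hcop : IsCoprime h Q₂ := by
        by_contra h4
        exact hj2 (hH2.zero h hhm h4)
      have h5 := hH2.norm h hhm hcop
      have h6 : χ j h * conj (χ j h) = 1 := by
        rw [Complex.mul_conj, Complex.normSq_eq_norm_sq, h5]
        norm_num
      simp only [hψdef]
      rw [mul_pow, h3, ← mul_pow, h6, one_pow]
    have fam2 : Fam R (fun b : Bool => cond b (fun f => χ i f ^ 2) (fun f => χ j f ^ 2)) := by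
      refine ⟨?_, ?_⟩
      · intro b
        cases b
        · exact ⟨Q₂, l₂, (hHC F Q₂ Q₂ l₂ l₂ (χ j) (χ j) hH2 hH2).2.2.1, hl2⟩
        · exact ⟨Q₁, l₁, (hHC F Q₁ Q₁ l₁ l₁ (χ i) (χ i) hH1 hH1).2.2.1, hl1⟩
      · intro a b hab
        cases a <;> cases b
        · exact absurd rfl hab
        · exact ⟨h, hhm, pow_ne_zero 2 hj2, pow_ne_zero 2 hi2, hne2.symm⟩
        · exact ⟨h, hhm, pow_ne_zero 2 hi2, pow_ne_zero 2 hj2, hne2⟩
        · exact absurd rfl hab
    have hexp : ∀ k : ℕ, C / y * Real.exp (-(c₀ * k / y)) ≤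
        max C 1 / y * Real.exp (-(c₀ * k / y)) := fun k =>
      mul_le_mul_of_nonneg_right (div_le_div_of_nonneg_right (le_max_left _ _) (by linarith))
        (Real.exp_pos _).le
    have b1 : ∀ k : ℕ, 1 ≤ k → ‖rr y ψ k‖ ≤ max C 1 / y * Real.exp (-(c₀ * k / y)) := by
      intro k hk
      refine le_trans ?_ (hexp k)
      exact rr_bound (fun f hf => hn1 f (hRo k f hf).1 (hRo k f hf).2)
        (fun f hf => hn2 f (hRo k f hf).1 (hRo k f hf).2)
        (fun c => ((H F R y Bool _ fam1 hy h8 k hk).2 c).1)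
    have b2 : ∀ k : ℕ, 1 ≤ k → ‖rr y (fun f => ψ f ^ 2) k‖ ≤
        max C 1 / y * Real.exp (-(c₀ * k / y)) := by
      intro k hk
      refine le_trans ?_ (hexp k)
      have := rr_bound (χ₁ := fun f => χ i f ^ 2) (χ₂ := fun f => χ j f ^ 2)
        (fun f hf => by rw [norm_pow, hn1 f (hRo k f hf).1 (hRo k f hf).2, one_pow])
        (fun f hf => by rw [norm_pow, hn2 f (hRo k f hf).1 (hRo k f hf).2, one_pow])
        (fun c => ((H F R y Bool _ fam2 hy h8 k hk).2 c).1)
      have e : (fun f : F[X] => ψ f ^ 2) = fun f => χ i f ^ 2 * conj (χ j f ^ 2) := by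
        funext f
        simp only [hψdef]
        rw [mul_pow, map_pow]
      rw [e]
      exact this
    have cm0 : CM (fun _ : F[X] => (1 : ℂ)) := ⟨rfl, fun _ _ _ _ => (mul_one _).symm⟩
    have cm1 : CM ψ := ⟨hψH.one, hψH.mul⟩
    have cm2 : CM (fun f : F[X] => ψ f ^ 2) :=
      ⟨by simp only [hψH.one, one_pow], fun f g hf hg => by
        simp only [hψH.mul f g hf hg, mul_pow]⟩
    obtain ⟨i01, _, i03⟩ := hIDN F y _ cm0
    obtain ⟨i11, _, i13⟩ := hIDN F y _ cm1
    obtain ⟨i21, _, i23⟩ := hIDN F y _ cm2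
    set r1 : ℕ → ℝ := fun k => (Ro F y k).card / qq F ^ k with hr1
    set a1 : ℕ → ℝ := fun k => (∑ P ∈ (PD F k).filter (fun P => y < P.natDegree),
      (P.natDegree : ℝ)) / qq F ^ k with ha1
    have a1le : ∀ k : ℕ, |a1 k| ≤ max C 1 := by
      intro k
      have h1 : 0 ≤ a1 k := div_nonneg (sum_nonneg fun _ _ => Nat.cast_nonneg _)
        (pow_pos qq_pos k).le
      rw [abs_of_nonneg h1]
      refine le_trans ?_ (le_max_right _ _)
      simp only [ha1]
      rw [div_le_one (pow_pos qq_pos k)]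
      exact sum_deg_le hCPR y k
    have low := H1 y r1 a1 (rr y ψ) (rr y (fun f => ψ f ^ 2)) (AA y ψ) (AA y (fun f => ψ f ^ 2)) hy
      (by
        rw [rr_one] at i01
        exact_mod_cast i01)
      i11 i21
      (fun k hk => ⟨div_nonneg (Nat.cast_nonneg _) (pow_pos qq_pos k).le, by
        simp only [hr1]
        rw [div_le_iff₀ (pow_pos qq_pos k)]
        refine le_trans (H F R y Bool _ fam1 hy h8 k hk).1 ?_
        apply mul_le_mul_of_nonneg_right _ (pow_pos qq_pos k).le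
        exact div_le_div_of_nonneg_right (le_max_left _ _) (by linarith)⟩)
      (fun k hk => ⟨b1 k hk, b2 k hk⟩)
      (fun k => ⟨a1le k,
        (AA_le_one hCPR (fun P h1 h2 h3 => (hψ1 P h1 h2 h3).le) k).trans (le_max_right _ _),
        (AA_le_one hCPR (fun P h1 h2 h3 => by
          rw [norm_pow, hψ1 P h1 h2 h3, one_pow]) k).trans (le_max_right _ _)⟩)
      (fun n hn => by
        have := (i03 n hn).1
        rw [rr_one] at this
        simp only [AA_one, rr_one] at this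
        apply Complex.ofReal_injective
        rw [Complex.ofReal_mul, Complex.ofReal_natCast, Complex.ofReal_sum]
        simp only [Complex.ofReal_mul]
        exact this)
      (fun n hn => (i13 n hn).1) (fun n hn => (i23 n hn).1)
      (fun k w hw => AA_pos ψ y k hψ1 w hw)
    have fin := H2 y (rr y ψ) (AA y ψ) hy i11 b1
      (fun k => (AA_le_one hCPR (fun P h1 h2 h3 => (hψ1 P h1 h2 h3).le) k).trans (le_max_right _ _))
      (fun n hn => (i13 n hn).1) low k hk
    refine fin.trans ?_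
    apply div_le_div_of_nonneg_right _ hk0.le
    exact mul_le_mul_of_nonneg_right (le_max_left _ _) (by linarith)
  · -- case B
    push Not at hA
    have hW := hWEIL F hchar (Q₁ * Q₂) (max l₁ l₂) ψ hψH
      (fun f hf => by
        by_cases h3 : ψ f = 0
        · exact Or.inl h3
        · exact Or.inr (hA f hf h3))
      ⟨h0, hh0m, by
        simp only [hψdef]
        exact mul_ne_zero hi0 ((_root_.map_ne_zero _).2 hj0), by
        intro h3
        apply hne
        have hcop : IsCoprime h0 Q₂ := by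
          by_contra h4
          exact hj0 (hH2.zero h0 hh0m h4)
        have h5 := hH2.norm h0 hh0m hcop
        have h6 : χ j h0 * conj (χ j h0) = 1 := by
          rw [Complex.mul_conj, Complex.normSq_eq_norm_sq, h5]
          norm_num
        have h7 : χ i h0 * conj (χ j h0) = 1 := h3
        calc χ i h0 = χ i h0 * conj (χ j h0) * χ j h0 := by rw [mul_assoc, mul_comm (conj _), h6, mul_one]
          _ = χ j h0 := by rw [h7, one_mul]⟩ k hk
    have hdeg : (Q₁ * Q₂).natDegree ≤ 2 * R := by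
      rw [hH1.monic.natDegree_mul hH2.monic]
      omega
    refine le_trans (caseB hCPR hy h8 hk hdeg (fun P h1 _ => hψle P h1) hW) ?_
    apply div_le_div_of_nonneg_right _ hk0.le
    exact mul_le_mul_of_nonneg_right (le_max_right _ _) (by linarith)

end Pool.Agent.Q16.PS
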